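import Mathlib
import Pool.Agent.H858.AS.Expl

/-!
# The asymptotic spectrum of finite schemes

Spectral points are the real functions on the finite schemes which are additive for disjoint unions,
multiplicative for products, normalised by the point, monotone for closed subschemes, images and
degenerations, and at most the degree on smoothable schemes. The growth rate of
`deg Γ^n + δ(Γ^n)` is the maximum of the values of the spectral points at `Γ`. So Q1 for `Γ` says that
no spectral point is larger than the degree at `Γ`. More generally the spectral points decide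
asymptotically which schemes can be obtained from which.
-/

set_option autoImplicit false

namespace Pool.Agent.Results.MP_44217d_ag.AsymptoticSpectrum

open Pool.Agent.H858.AS TensorProduct
open Pool.Agent.H826R3.SM Pool.Agent.TH671.DU

/-- (1) For nonempty `Γ = Spec A` the growth rate `rate k A` of `deg Γ^n + δ(Γ^n)` is the largest
value of a spectral point at `A`, and Q1 holds for `Γ` if and only if all spectral points are at most
the degree at `A`. -/
def MaxFormula (k : Type) [Field k] : Prop :=
  ∀ A : FAlg k, Nontrivial A →
    IsGreatest {x : ℝ | ∃ φ : FAlg k → ℝ, Spectral k φ ∧ x = φ A} (rate k A) ∧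
    (QOne k A ↔ ∀ φ : FAlg k → ℝ, Spectral k φ → φ A ≤ Module.finrank k A)

/-- (2) All spectral points are at most as large at `A` as at `B` if and only if, for every `ε > 0`
and all large `n`, the power `(Spec A)^n` can be obtained from at most `(1 + ε)^n` disjoint copies of
`(Spec B)^n`. -/
def Duality (k : Type) [Field k] : Prop :=
  ∀ A B : FAlg k, (∀ φ : FAlg k → ℝ, Spectral k φ → φ A ≤ φ B) ↔
    ∀ ε : ℝ, 0 < ε → ∃ N : ℕ, ∀ n ≥ N, ∃ x : ℕ, (x : ℝ) ≤ (1 + ε) ^ n ∧
      Obt k (FAlg.of k (Pow k A n)) (FAlg.of k ((Fin x → k) ⊗[k] Pow k B n))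

/-- (3) For two nonempty finite schemes the growth rate is additive (for the disjoint union) if and
only if it is multiplicative (for the product), and if and only if some spectral point is maximal at
both. -/
def SumsAndProducts (k : Type) [Field k] : Prop :=
  ∀ A B : FAlg k, Nontrivial A → Nontrivial B →
    (rate k (A × B) = rate k A + rate k B ↔ rate k (A ⊗[k] B) = rate k A * rate k B) ∧
    (rate k (A × B) = rate k A + rate k B ↔
      ∃ φ : FAlg k → ℝ, Spectral k φ ∧ φ A = rate k A ∧ φ B = rate k B)

/-- (4) The growth rate is additive for all pairs if and only if it is multiplicative for all pairs,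
if and only if it is a spectral point, and if and only if there is a largest spectral point. This is
so if Q1 holds for all finite schemes over `k`; then the largest spectral point is the degree. -/
def LargestPoint (k : Type) [Field k] : Prop :=
  List.TFAE [∀ A B : FAlg k, Nontrivial A → Nontrivial B → rate k (A × B) = rate k A + rate k B,
      ∀ A B : FAlg k, Nontrivial A → Nontrivial B → rate k (A ⊗[k] B) = rate k A * rate k B,
      Spectral k fun A => rate k A,
      ∃ φ : FAlg k → ℝ, Spectral k φ ∧ ∀ ψ : FAlg k → ℝ, Spectral k ψ → ∀ A, ψ A ≤ φ A] ∧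
  ((∀ A : FAlg k, Nontrivial A → QOne k A) ↔
    ∀ ψ : FAlg k → ℝ, Spectral k ψ → ∀ A, ψ A ≤ Module.finrank k A)

/-- (5) The degree and the number of points `numPts` are spectral points. The number of points is the
least spectral point, and `r` reduced points can be obtained from `Spec A` if and only if
`r ≤ numPts A`. -/
def DegreeAndPoints (k : Type) [Field k] : Prop :=
  (Spectral k fun A => (Module.finrank k A : ℝ)) ∧ (Spectral k fun A => (numPts k A : ℝ)) ∧
  (∀ φ : FAlg k → ℝ, Spectral k φ → ∀ A : FAlg k, (numPts k A : ℝ) ≤ φ A) ∧
  ∀ (A : FAlg k) (r : ℕ), Obt k (FAlg.of k (Fin r → k)) A ↔ r ≤ numPts k A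

/-- (6) In characteristic `p` there are infinitely many spectral points: the dimension
`powDim k (p ^ e) A` of the space of the `p ^ e`-th powers in `A` is one for every `e`. Its value at
`k[x] / x^n` is `n / p ^ e`, rounded up. -/
def FrobeniusPoints (k : Type) [Field k] : Prop :=
  ∀ (p e : ℕ) [Fact p.Prime] [CharP k p], (Spectral k fun A => (powDim k (p ^ e) A : ℝ)) ∧
    ∀ n : ℕ, powDim k (p ^ e) (Polynomial k ⧸ Ideal.span {(Polynomial.X : Polynomial k) ^ n}) =
      (n + p ^ e - 1) / p ^ e

/-- `k` is an algebraically closed field of any characteristic; `FAlg k` is the type of the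
finite-dimensional commutative `k`-algebras `A`, `Γ = Spec A`; `Spectral k φ`: `φ` is a spectral
point; `Obt k A B`: `Spec A` can be obtained from `Spec B`; `Pow k A n` is the coordinate ring of
`Γ^n`, `QOne k A` is Q1 for `Γ`, and `rate k A` is the infimum over `n ≥ 1` of
`(deg Γ^n + δ(Γ^n))^(1/n)`. -/
theorem result (k : Type) [Field k] [IsAlgClosed k] :
    MaxFormula k ∧ Duality k ∧ SumsAndProducts k ∧ LargestPoint k ∧ DegreeAndPoints k ∧
      FrobeniusPoints k := by
  refine ⟨fun A _ => ⟨isGreatest lem A, qOne_iff lem A⟩, comparison lem, fun A B _ _ => ⟨?_, ?_⟩,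
    ⟨tfae lem, ?_⟩, ⟨deg_spectral, pts_spectral, fun φ h A => pts_le h A, obt_pts_iff⟩,
    fun p e _ _ => ⟨frob_spectral p e, fun n => frobC k p e n⟩⟩
  · rw [(add_iff lem A B).1, (add_iff lem A B).2]
  · exact (add_iff lem A B).1
  · constructor
    · intro h ψ hψ A
      by_cases hA : Nontrivial A
      · exact (qOne_iff lem A).mp (h A hA) ψ hψ
      · rw [not_nontrivial_iff_subsingleton] at hA
        rw [hψ.sub A hA]
        positivity
    · intro h A hA
      exact (qOne_iff lem A).mpr fun φ hφ => h φ hφ A

end Pool.Agent.Results.MP_44217d_ag.AsymptoticSpectrum
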